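import Mathlib
import Pool.Agent.P.MP_efa640_lc.Main

namespace Pool.Agent.Results.MP_efa640_lc.IffCH

open FirstOrder Pool.Agent.P.MP_efa640_lc

universe u

theorem result (M : Type u) [fullLang.Structure M] (ι : ℕ+ ↪ₑ[fullLang] M)
    (hsat : ∀ 𝓕 : Set (Set M), (∀ X ∈ 𝓕, (Set.univ : Set M).Definable₁ fullLang X) →
      Cardinal.mk 𝓕 ≤ Cardinal.continuum →
      (∀ 𝓖 ⊆ 𝓕, 𝓖.Finite → (⋂₀ 𝓖).Nonempty) → (⋂₀ 𝓕).Nonempty) :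
    (∀ P Q : Ultrafilter ℕ+,
      {p : ℕ+ | (p : ℕ).Prime} ∈ P → (∀ n, P ≠ pure n) →
      {p : ℕ+ | (p : ℕ).Prime} ∈ Q → (∀ n, Q ≠ pure n) →
      Nonempty (preceq M P ≃r preceq M Q)) ↔
    Cardinal.continuum.{0} = Cardinal.aleph 1 :=
  main ι hsat

end Pool.Agent.Results.MP_efa640_lc.IffCH
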